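import Pool.Agent.Q227.GM.Final

/-!
# Greedy MIS colouring of interference graphs is a constant-factor approximation

The definitions `Requests`, `Requests.Interferes`, `Requests.graph` are in
`Pool.Agent.Q227.GM.Req`, and `GreedyRun` is in `Pool.Agent.Q227.GM.Run`.

The tree is rooted. The requests whose emission arc leads downwards have an interference graph
which is the comparability graph of a forest order, and the same holds for the requests whose
reception arc leads upwards; an independent set contains at most two other requests, and at most
one request of one of the two kinds. So a maximum independent set contains nearly a maximum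
antichain of the remaining requests of one kind. Tracking, backwards in time, lowest requests
below the members of a remaining antichain shows that after `2 χ` steps for one kind at most five
pairwise non-interfering requests of this kind remain.
-/

set_option autoImplicit false

namespace Pool.Agent.Results.MP_9b45c5_lc.GreedyConstant

open Pool.Agent.Q227.GM

/-- There is a constant `C` such that, for every finite bidirected tree and every finite family of
requests in it, every run of greedy MIS colouring on the interference graph uses at most `C · χ`
colours; one can take `C = 16`. -/
theorem result :
    ∃ C : ℕ, C ≤ 16 ∧ ∀ (V ι : Type) [Finite V] [Fintype ι] [DecidableEq ι] (T : SimpleGraph V),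
      T.IsTree → ∀ (R : Requests T ι) (n : ℕ), GreedyRun R.graph Finset.univ n →
        (n : ℕ∞) ≤ C * R.graph.chromaticNumber := by
  refine ⟨16, le_rfl, fun V ι _ _ _ T hT R n h => ?_⟩
  have hc : R.graph.Colorable (Fintype.card ι) := R.graph.colorable_of_fintype
  obtain ⟨k, hk⟩ : ∃ k : ℕ, R.graph.chromaticNumber = k :=
    ⟨_, (ENat.coe_toNat (SimpleGraph.chromaticNumber_ne_top_iff_exists.2 ⟨_, hc⟩)).symm⟩
  have hck : R.graph.Colorable k := SimpleGraph.chromaticNumber_le_iff_colorable.1 hk.le
  rw [hk]
  exact_mod_cast greedy_bound hT R hck h

end Pool.Agent.Results.MP_9b45c5_lc.GreedyConstant
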